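import Pool.Agent.H14.TOW.Targets

/-!
# FBS: the degree of the map is finite
-/

set_option autoImplicit false

open MvPolynomial Pool.Agent.H14.TOW

namespace Pool.Agent.H1.TOW

/-- a finitely generated field is finite over the image of an endomorphism -/
theorem fin_range {k K : Type} [Field k] [Field K] [Algebra k K] (σ : K →ₐ[k] K)
    (hF : Fgn k K) : FiniteDimensional σ.fieldRange K := by
  haveI h1 : Algebra.EssFiniteType k K := IntermediateField.fg_top_iff.1 hF
  obtain ⟨s, hs⟩ := exists_isTranscendenceBasis k K
  haveI : Finite s := finite_of_isTranscendenceBasis hs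
  have hσs : AlgebraicIndependent k (σ ∘ (Subtype.val : s → K)) := hs.1.map' σ.injective
  have hB : IsTranscendenceBasis k (σ ∘ (Subtype.val : s → K)) :=
    hσs.isTranscendenceBasis_of_trdeg_le_of_finite (by rw [hs.cardinalMk_eq_trdeg])
  have halg := hB.isAlgebraic_field
  have hle : IntermediateField.adjoin k (Set.range (σ ∘ (Subtype.val : s → K))) ≤
      σ.fieldRange := by
    refine IntermediateField.adjoin_le_iff.2 ?_
    rintro _ ⟨i, rfl⟩
    exact ⟨_, rfl⟩
  have halgL : ∀ x : K, IsAlgebraic σ.fieldRange x := by
    intro x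
    letI := (IntermediateField.inclusion hle).toRingHom.toAlgebra
    haveI : IsScalarTower (IntermediateField.adjoin k (Set.range (σ ∘ (Subtype.val : s → K))))
      σ.fieldRange K := IsScalarTower.of_algebraMap_eq (fun _ => rfl)
    exact (halg.isAlgebraic x).tower_top σ.fieldRange
  haveI h2 : Algebra.EssFiniteType σ.fieldRange K := Algebra.EssFiniteType.of_comp k _ K
  obtain ⟨S, hS⟩ := IntermediateField.fg_top σ.fieldRange K
  have h3 : FiniteDimensional σ.fieldRange (IntermediateField.adjoin σ.fieldRange (S : Set K)) :=
    IntermediateField.finiteDimensional_adjoin fun x _ => (halgL x).isIntegral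
  rw [hS] at h3
  exact (IntermediateField.topEquiv (F := σ.fieldRange) (E := K)).toLinearEquiv.finiteDimensional

theorem pf_FBS : T_FBS := by
  classical
  intro k K _ _ _ σ hF
  haveI := fin_range σ hF
  refine ⟨Module.finrank σ.fieldRange K, Module.finBasis σ.fieldRange K, ?_, ?_⟩
  · intro c hc i
    have h1 : ∑ i, (⟨σ (c i), ⟨c i, rfl⟩⟩ : σ.fieldRange) • Module.finBasis σ.fieldRange K i = 0 := by
      rw [← hc]
      refine Finset.sum_congr rfl fun i _ => ?_
      rw [mul_comm]
      rfl
    have h2 := Fintype.linearIndependent_iff.1 (Module.finBasis σ.fieldRange K).linearIndependent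
      _ h1 i
    have h3 : σ (c i) = 0 := congrArg Subtype.val h2
    exact (map_eq_zero σ).1 h3
  · intro a
    have h1 : ∀ i, ∃ c : K, σ c = ((Module.finBasis σ.fieldRange K).repr a i : K) := fun i =>
      ((Module.finBasis σ.fieldRange K).repr a i).2
    choose c hc using h1
    refine ⟨c, ?_⟩
    conv_lhs => rw [← (Module.finBasis σ.fieldRange K).sum_repr a]
    refine Finset.sum_congr rfl fun i _ => ?_
    rw [hc, mul_comm]
    rfl

end Pool.Agent.H1.TOW
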