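import Pool.Agent.H14.TOW.Targets

/-!
# SPT: places which are algebraic over a subfield
-/

set_option autoImplicit false

open MvPolynomial Pool.Agent.H14.TOW

namespace Pool.Agent.H1.TOW

/-- the degree of the map on a finite extension of a field is at most the degree on the field -/
theorem deg_le {k κ : Type} [Field k] [Field κ] [Algebra k κ] (τ : κ →ₐ[k] κ)
    (κ₀ : IntermediateField k κ) (W : IntermediateField κ₀ κ) [FiniteDimensional κ₀ W]
    (hτ₀ : ∀ x ∈ κ₀, τ x ∈ κ₀) (hτW : ∀ x ∈ W, τ x ∈ W) (e e' : ℕ) (g : Fin e → κ)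
    (hg : ∀ x ∈ κ₀, ∃ t : Fin e → κ, (∀ i, t i ∈ κ₀) ∧ x = ∑ i, g i * τ (t i))
    (b' : Fin e' → κ) (hb' : ∀ i, b' i ∈ W) (hI : Ind τ b') : e' ≤ e := by
  classical
  have hD := Module.finrank_pos (R := κ₀) (M := W)
  set D := Module.finrank κ₀ W with hDd
  let b : Module.Basis (Fin D) κ₀ W := Module.finBasis κ₀ W
  -- linear combinations of the basis
  have hspan : ∀ x ∈ W, ∃ a : Fin D → κ, (∀ j, a j ∈ κ₀) ∧ x = ∑ j, a j * (b j : κ) := by
    intro x hx
    refine ⟨fun j => (b.repr ⟨x, hx⟩ j : κ), fun j => (b.repr ⟨x, hx⟩ j).2, ?_⟩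
    have h1 := b.sum_repr ⟨x, hx⟩
    have h2 : ((∑ j, b.repr ⟨x, hx⟩ j • b j : W) : κ) = x := congrArg Subtype.val h1
    refine h2.symm.trans ?_
    rw [IntermediateField.coe_sum]
    refine Finset.sum_congr rfl fun j _ => ?_
    rfl
  have hind : ∀ a : Fin D → κ, (∀ j, a j ∈ κ₀) → ∑ j, a j * (b j : κ) = 0 → ∀ j, a j = 0 := by
    intro a ha h j
    have h1 : ∑ j, (⟨a j, ha j⟩ : κ₀) • b j = 0 := by
      apply Subtype.ext
      rw [IntermediateField.coe_sum]
      exact h
    have h2 := Fintype.linearIndependent_iff.1 b.linearIndependent _ h1 j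
    exact congrArg Subtype.val h2
  let T : IntermediateField k κ := κ₀.map τ
  have hT : ∀ c : T, ∃ a ∈ κ₀, τ a = (c : κ) := fun c => c.2
  let v : Fin e' × Fin D → κ := fun p => b' p.1 * τ (b p.2 : κ)
  let s : Fin D × Fin e → κ := fun p => (b p.1 : κ) * g p.2
  have hv : LinearIndependent T v := by
    rw [Fintype.linearIndependent_iff]
    intro c hc p
    choose a ha hac using fun p => hT (c p)
    have h1 : ∑ l, b' l * τ (∑ j, a (l, j) * (b j : κ)) = 0 := by
      rw [← hc, Fintype.sum_prod_type]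
      refine Finset.sum_congr rfl fun l _ => ?_
      rw [map_sum, Finset.mul_sum]
      refine Finset.sum_congr rfl fun j _ => ?_
      rw [map_mul, hac]
      change b' l * ((c (l, j) : κ) * τ (b j : κ)) = (c (l, j) : κ) * (b' l * τ (b j : κ))
      ring
    have h2 := hI _ h1 p.1
    have h3 := hind (fun j => a (p.1, j)) (fun j => ha _) h2 p.2
    apply Subtype.ext
    rw [← hac p]
    change τ (a (p.1, p.2)) = ((0 : T) : κ)
    rw [h3, map_zero]
    rfl
  have hs : Set.range v ≤ Submodule.span T (Set.range s) := by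
    rintro _ ⟨p, rfl⟩
    have h1 : v p ∈ W := W.mul_mem (hb' p.1) (hτW _ (b p.2).2)
    obtain ⟨a, ha, hx⟩ := hspan (v p) h1
    choose t ht hat using fun j => hg (a j) (ha j)
    change v p ∈ Submodule.span T (Set.range s)
    rw [hx]
    refine Submodule.sum_mem _ fun j _ => ?_
    rw [hat j, Finset.sum_mul]
    refine Submodule.sum_mem _ fun i _ => ?_
    have h2 : g i * τ (t j i) * (b j : κ) =
        (⟨τ (t j i), ⟨t j i, ht j i, rfl⟩⟩ : T) • s (j, i) := by
      change g i * τ (t j i) * (b j : κ) = τ (t j i) * ((b j : κ) * g i)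
      ring
    rw [h2]
    exact Submodule.smul_mem _ _ (Submodule.subset_span ⟨(j, i), rfl⟩)
  have h3 := linearIndependent_le_span' v hv (Set.range s) hs
  rw [Cardinal.mk_fintype, Nat.cast_le] at h3
  have h4 : Fintype.card (Set.range s) ≤ Fintype.card (Fin D × Fin e) :=
    Fintype.card_range_le s
  have h5 := h3.trans h4
  rw [Fintype.card_prod, Fintype.card_prod, Fintype.card_fin, Fintype.card_fin,
    Fintype.card_fin] at h5
  have h6 : D * e' ≤ D * e := by
    rw [mul_comm D e']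
    exact h5
  exact Nat.le_of_mul_le_mul_left h6 hD

theorem alg_of_snoc {k κ : Type} [Field k] [Field κ] [Algebra k κ] {n : ℕ} (x : Fin n → κ)
    (a : κ) (hx : AlgebraicIndependent k x)
    (h : ¬ AlgebraicIndependent k (Fin.snoc x a : Fin (n + 1) → κ)) (κ₀ : IntermediateField k κ)
    (hxκ : ∀ i, x i ∈ κ₀) : IsAlgebraic κ₀ a := by
  have h1 : ¬ AlgebraicIndependent k (fun o : Option (Fin n) => o.elim a x) := by
    intro h2
    refine h ((algebraicIndependent_equiv' finSuccEquivLast ?_).2 h2)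
    funext i
    refine Fin.lastCases ?_ (fun i => ?_) i
    · rw [Function.comp_apply, finSuccEquivLast_last, Fin.snoc_last]
      rfl
    · rw [Function.comp_apply, finSuccEquivLast_castSucc, Fin.snoc_castSucc]
      rfl
  rw [hx.option_iff_transcendental] at h1
  have h2 : IsAlgebraic (Algebra.adjoin k (Set.range x)) a := by
    by_contra h3
    exact h1 h3
  have hle : Algebra.adjoin k (Set.range x) ≤ κ₀.toSubalgebra := by
    refine Algebra.adjoin_le ?_
    rintro _ ⟨i, rfl⟩
    exact hxκ i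
  letI : Algebra (Algebra.adjoin k (Set.range x)) κ₀ :=
    (Subalgebra.inclusion hle).toRingHom.toAlgebra
  haveI : IsScalarTower (Algebra.adjoin k (Set.range x)) κ₀ κ :=
    IsScalarTower.of_algebraMap_eq (fun _ => rfl)
  refine h2.extendScalars ?_
  intro y z hyz
  exact Subalgebra.inclusion_injective hle hyz

theorem pf_SPT (h1 : T_LIN) (h2 : T_RVR) : T_SPT := by
  classical
  intro k K κ _ _ _ _ _ σ O ρ τ E σE n q e e' u w A B A' B' γ β hP hσE hE hu hui hw hAB hdep
    hAB' hγ hβ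
  obtain ⟨hR1, -, hR3⟩ := h2 k K κ σ O ρ τ hP
  have hEO : ∀ a ∈ E, a ∈ O := by
    intro a ha
    by_cases h : a = 0
    · rw [h]
      exact O.zero_mem
    · exact (hE a ha h).1
  let φ : E →ₐ[k] κ := ρ.comp (E.val.codRestrict O (fun a => hEO a a.2))
  have hφ : ∀ a : E, φ a = rv O ρ (a : K) := by
    intro a
    unfold rv
    rw [dif_pos (hEO a a.2)]
    rfl
  have hφτ : ∀ a : E, τ (φ a) = φ (σE a) := by
    intro a
    rw [hφ, hφ, hσE, (hP.stab a (hEO a a.2)).2]
  let κ₀ : IntermediateField k κ := φ.fieldRange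
  have hκ₀ : ∀ x ∈ κ₀, ∃ a : E, φ a = x := fun x hx => hx
  have hκ₀m : ∀ a : E, φ a ∈ κ₀ := fun a => ⟨a, rfl⟩
  let W : IntermediateField κ₀ κ :=
    IntermediateField.adjoin κ₀ (Set.range fun i => rv O ρ (w i))
  have hWw : ∀ i, rv O ρ (w i) ∈ W := fun i => IntermediateField.subset_adjoin _ _ ⟨i, rfl⟩
  have hW₀ : ∀ x ∈ κ₀, x ∈ W := fun x hx => W.algebraMap_mem ⟨x, hx⟩
  -- the values of polynomials
  have hpoly : ∀ c : MvPolynomial (Fin q) k, aeval (fun i => rv O ρ (w i)) c ∈ W := by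
    intro c
    induction c using MvPolynomial.induction_on with
    | C a =>
      rw [aeval_C]
      exact hW₀ _ (κ₀.algebraMap_mem a)
    | add p p' hp hp' =>
      rw [map_add]
      exact W.add_mem hp hp'
    | mul_X p i hp =>
      rw [map_mul, aeval_X]
      exact W.mul_mem hp (hWw i)
  have hval : ∀ (a : K) (c d : MvPolynomial (Fin q) k), Uni O ρ (aeval w d) →
      a * aeval w d = aeval w c → rv O ρ a ∈ W := by
    intro a c d hd had
    have h3 := (hR3 a (aeval w d) (aeval w c) hd (hR1 q w hw c).1 had).2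
    have h4 : rv O ρ a = rv O ρ (aeval w c) / rv O ρ (aeval w d) := by
      rw [eq_div_iff hd.2, h3]
    rw [h4, (hR1 q w hw c).2, (hR1 q w hw d).2]
    exact W.div_mem (hpoly c) (hpoly d)
  have hτ₀ : ∀ x ∈ κ₀, τ x ∈ κ₀ := by
    intro x hx
    obtain ⟨a, rfl⟩ := hκ₀ x hx
    rw [hφτ]
    exact hκ₀m _
  have hτW : ∀ x ∈ W, τ x ∈ W := by
    intro x hx
    induction hx using IntermediateField.adjoin_induction with
    | mem x hx =>
      obtain ⟨i, rfl⟩ := hx
      change τ (rv O ρ (w i)) ∈ W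
      rw [← (hP.stab (w i) (hw i)).2]
      exact hval _ _ _ (hAB i).1 (hAB i).2
    | algebraMap x => exact hW₀ _ (hτ₀ _ x.2)
    | add x y _ _ hx hy =>
      rw [map_add]
      exact W.add_mem hx hy
    | inv x _ hx =>
      rw [map_inv₀]
      exact W.inv_mem hx
    | mul x y _ _ hx hy =>
      rw [map_mul]
      exact W.mul_mem hx hy
  have hui' : AlgebraicIndependent k (fun j => rv O ρ (u j)) := by
    have h3 : AlgebraicIndependent k (fun j => (⟨u j, hu j⟩ : E)) :=
      (AlgHom.algebraicIndependent_iff E.val E.val.injective).1 hui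
    have h4 := h3.map' φ.injective
    have h5 : (φ ∘ fun j => (⟨u j, hu j⟩ : E)) = fun j => rv O ρ (u j) := by
      funext j
      rw [Function.comp_apply, hφ]
    rwa [h5] at h4
  haveI : FiniteDimensional κ₀ W := by
    refine IntermediateField.finiteDimensional_adjoin ?_
    rintro _ ⟨i, rfl⟩
    refine (alg_of_snoc _ _ hui' (hdep i) κ₀ ?_).isIntegral
    intro j
    have := hκ₀m ⟨u j, hu j⟩
    rwa [hφ] at this
  refine deg_le τ κ₀ W hτ₀ hτW e e' (fun i => φ (γ i)) ?_ (fun i => rv O ρ (β i)) ?_ hβ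
  · intro x hx
    obtain ⟨a, rfl⟩ := hκ₀ x hx
    obtain ⟨c, hc⟩ := hγ a
    refine ⟨fun i => φ (c i), fun i => hκ₀m _, ?_⟩
    rw [hc, map_sum]
    refine Finset.sum_congr rfl fun i _ => ?_
    rw [map_mul, hφτ]
  · intro i
    exact hval _ _ _ (hAB' i).1 (hAB' i).2

end Pool.Agent.H1.TOW
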